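import Pool.Agent.H41.CUBE.TStmts

/-!
# Cube project, block TAME: the projection to weights divisible by `D`, and relations
-/

set_option autoImplicit false

open Finset MvPolynomial Pool.CM

namespace Pool.CUBE.T99

section
variable {n : ℕ} {A : Type} [CommRing A]

/-- the projection to the weights divisible by `D` -/
noncomputable def piD (D : ℕ) : Poly n A →ₗ[A] Poly n A :=
  open Classical in linMon fun a => if D ∣ a.degree + (n + 1) then monomial a 1 else 0

theorem piD_monomial (D : ℕ) (a : Fin (n + 1) →₀ ℕ) (r : A) [Decidable (D ∣ a.degree + (n + 1))] :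
    piD D (monomial a r) = if D ∣ a.degree + (n + 1) then monomial a r else 0 := by
  classical
  rw [piD, linMon_monomial]
  split_ifs
  · rw [smul_monomial, smul_eq_mul, mul_one]
  · rw [smul_zero]

theorem coeff_piD (D : ℕ) (g : Poly n A) (a : Fin (n + 1) →₀ ℕ)
    [Decidable (D ∣ a.degree + (n + 1))] :
    coeff a (piD D g) = if D ∣ a.degree + (n + 1) then coeff a g else 0 := by
  classical
  induction g using MvPolynomial.induction_on' with
  | add g1 g2 h1 h2 =>
    rw [map_add, coeff_add, h1, h2, coeff_add]
    split_ifs <;> simp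
  | monomial b s =>
    rw [piD_monomial]
    by_cases hb : D ∣ b.degree + (n + 1)
    · rw [if_pos hb, coeff_monomial]
      by_cases h : b = a
      · subst h; simp [hb]
      · simp [h]
    · rw [if_neg hb, coeff_zero, coeff_monomial]
      by_cases h : b = a
      · subst h; simp [hb]
      · simp [h]

theorem WtD_piD (D : ℕ) (g : Poly n A) : WtD D (piD D g) := by
  classical
  intro a ha
  rw [coeff_piD] at ha
  by_contra h
  rw [if_neg h] at ha
  exact ha rfl

theorem piD_of_WtD {D : ℕ} {g : Poly n A} (h : WtD D g) : piD D g = g := by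
  classical
  ext a
  rw [coeff_piD]
  split_ifs with h'
  · rfl
  · by_contra h''
    exact h' (h a (fun e => h'' e.symm))

theorem WtD_of_Wt {D m : ℕ} {g : Poly n A} (h : Wt (D * m) g) : WtD D g := by
  intro a ha
  rw [h a ha]
  exact Dvd.intro _ rfl

theorem piD_ez (D : ℕ) (i : Fin (n + 1)) (g : Poly n A) : piD D (ez i g) = ez i (piD D g) := by
  classical
  induction g using MvPolynomial.induction_on' with
  | add g1 g2 h1 h2 => rw [map_add, map_add, h1, h2, map_add, map_add]
  | monomial b s =>
    rw [ez_monomial, piD_monomial, piD_monomial]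
    split_ifs
    · rw [ez_monomial]
    · rw [map_zero]

theorem piD_mul {D : ℕ} {Q : Poly n A} (hQ : Q.IsHomogeneous D) (g : Poly n A) :
    piD D (Q * g) = Q * piD D g := by
  classical
  have key : ∀ m : Fin (n + 1) →₀ ℕ, m.degree = D → ∀ r : A, ∀ g : Poly n A,
      piD D (monomial m r * g) = monomial m r * piD D g := by
    intro m hm r g
    induction g using MvPolynomial.induction_on' with
    | add g1 g2 h1 h2 => rw [mul_add, map_add, map_add, h1, h2, mul_add]
    | monomial a s =>
      rw [monomial_mul, piD_monomial, piD_monomial]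
      have : D ∣ (m + a).degree + (n + 1) ↔ D ∣ a.degree + (n + 1) := by
        rw [map_add, hm, add_assoc]
        exact Nat.dvd_add_right (dvd_refl D)
      by_cases h : D ∣ a.degree + (n + 1)
      · rw [if_pos h, if_pos (this.2 h), monomial_mul]
      · rw [if_neg h, if_neg (fun h' => h (this.1 h')), mul_zero]
  conv_lhs => rw [Q.as_sum, Finset.sum_mul, map_sum]
  conv_rhs => rw [Q.as_sum, Finset.sum_mul]
  refine Finset.sum_congr rfl fun m hm => key m ?_ _ _
  exact hQ.degree_eq_sum_deg_support hm ▸ rfl

theorem ez_isHomogeneous {D : ℕ} {Q : Poly n A} (hQ : Q.IsHomogeneous D) (i : Fin (n + 1)) :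
    (ez i Q).IsHomogeneous D := by
  classical
  intro a ha
  have : coeff a (ez i Q) = (a i : A) * coeff a Q := by
    clear ha hQ
    induction Q using MvPolynomial.induction_on' with
    | add g1 g2 h1 h2 => rw [map_add, coeff_add, h1, h2, coeff_add]; ring
    | monomial b s =>
      rw [ez_monomial, coeff_monomial, coeff_monomial]
      by_cases h : b = a
      · subst h; simp
      · simp [h]
  rw [this] at ha
  exact hQ (fun h => ha (by rw [h, mul_zero]))

theorem piD_Dop {D : ℕ} {P : Poly n A} (hP : P.IsHomogeneous D) (i : Fin (n + 1))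
    (g : Poly n A) : piD D (Dop P i g) = Dop P i (piD D g) := by
  rw [Dop_apply, Dop_apply, map_sub, map_add, piD_ez, piD_mul (ez_isHomogeneous hP i)]

theorem mem_Rel {P g : Poly n A} : g ∈ Rel P ↔ ∃ h : Fin (n + 1) → Poly n A,
    g = ∑ i, Dop P i (h i) := by
  classical
  rw [Rel, Submodule.mem_iSup_iff_exists_finsupp]
  constructor
  · rintro ⟨f, hf, rfl⟩
    choose h hh using fun i => LinearMap.mem_range.1 (hf i)
    refine ⟨h, ?_⟩
    rw [Finsupp.sum_fintype _ _ (by simp)]
    exact Finset.sum_congr rfl fun i _ => (hh i).symm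
  · rintro ⟨h, rfl⟩
    refine ⟨Finsupp.equivFunOnFinite.symm fun i => Dop P i (h i), fun i => ?_, ?_⟩
    · exact ⟨h i, rfl⟩
    · rw [Finsupp.sum_fintype _ _ (by simp)]
      rfl

theorem map_ez {B : Type} [CommRing B] (φ : A →+* B) (i : Fin (n + 1)) (g : Poly n A) :
    map φ (ez i g) = ez i (map φ g) := by
  induction g using MvPolynomial.induction_on' with
  | add g1 g2 h1 h2 => rw [map_add, map_add, h1, h2, map_add, map_add]
  | monomial b s =>
    rw [ez_monomial, map_monomial, map_monomial, ez_monomial, map_mul, map_natCast]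

theorem map_Dop {B : Type} [CommRing B] (φ : A →+* B) (P : Poly n A) (i : Fin (n + 1))
    (g : Poly n A) : map φ (Dop P i g) = Dop (map φ P) i (map φ g) := by
  rw [Dop_apply, Dop_apply, map_sub, map_add, map_mul, map_ez, map_ez]

theorem CoefIn.zero {G : AddSubgroup A} : CoefIn G (0 : Poly n A) := fun a => by
  rw [coeff_zero]; exact G.zero_mem

theorem CoefIn.add {G : AddSubgroup A} {g h : Poly n A} (hg : CoefIn G g) (hh : CoefIn G h) :
    CoefIn G (g + h) := fun a => by
  rw [coeff_add]; exact G.add_mem (hg a) (hh a)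

theorem CoefIn.sum {G : AddSubgroup A} {ι : Type} (s : Finset ι) {g : ι → Poly n A}
    (hg : ∀ i ∈ s, CoefIn G (g i)) : CoefIn G (∑ i ∈ s, g i) := fun a => by
  rw [coeff_sum]; exact AddSubgroup.sum_mem _ fun i hi => hg i hi a

theorem CoefIn.smul {S : ℕ → AddSubgroup A} (hS : Filt S) {a b : ℕ} {c : A} {g : Poly n A}
    (hc : c ∈ S a) (hg : CoefIn (S b) g) : CoefIn (S (a + b)) (c • g) := fun m => by
  rw [coeff_smul]; exact hS.mul a b _ _ hc (hg m)

theorem WtD.zero {D : ℕ} : WtD D (0 : Poly n A) := fun a h => absurd (coeff_zero a) h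

theorem WtD.add {D : ℕ} {g h : Poly n A} (hg : WtD D g) (hh : WtD D h) : WtD D (g + h) := by
  intro a ha
  by_contra hn
  have h1 : coeff a g = 0 := by by_contra h1; exact hn (hg a h1)
  have h2 : coeff a h = 0 := by by_contra h2; exact hn (hh a h2)
  rw [coeff_add, h1, h2, add_zero] at ha
  exact ha rfl

theorem WtD.smul {D : ℕ} {g : Poly n A} (hg : WtD D g) (c : A) : WtD D (c • g) := by
  intro a ha
  refine hg a fun h => ha ?_
  rw [coeff_smul, h, smul_zero]

theorem WtD.sum {D : ℕ} {ι : Type} (s : Finset ι) {g : ι → Poly n A}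
    (hg : ∀ i ∈ s, WtD D (g i)) : WtD D (∑ i ∈ s, g i) := by
  classical
  induction s using Finset.induction_on with
  | empty => rw [Finset.sum_empty]; exact WtD.zero
  | insert a s ha ih =>
    rw [Finset.sum_insert ha]
    exact WtD.add (hg a (Finset.mem_insert_self _ _))
      (ih fun i hi => hg i (Finset.mem_insert_of_mem hi))

end

end Pool.CUBE.T99
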