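import Pool.Agent.H99.CUBE.Pre

/-!
# Cube project, block TAME: module BAS2 (the basis `e`, reduced monomials of level `≤ n`)
-/

set_option autoImplicit false

open Finset MvPolynomial Pool.CM

namespace Pool.CUBE

open T99

/-- the exponents which are reduced, of weight divisible by `D`, of level at most `n` -/
def T99.lowSet (n D : ℕ) : Set (Fin (n + 1) →₀ ℕ) :=
  {a | (∀ i, a i < D) ∧ D ∣ a.degree + (n + 1) ∧ a.degree + (n + 1) ≤ D * n}

theorem T99.lowSet_finite (n D : ℕ) : (T99.lowSet n D).Finite := by
  refine Set.Finite.subset (Finset.finite_toSet (Finset.Iic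
    (Finsupp.equivFunOnFinite.symm fun _ : Fin (n + 1) => D))) fun a ha => ?_
  rw [Finset.coe_Iic, Set.mem_Iic, Finsupp.le_def]
  intro i
  exact (ha.1 i).le

theorem T99.degree_eq {n : ℕ} (a : Fin (n + 1) →₀ ℕ) : a.degree = ∑ i, a i := by
  rw [Finsupp.degree]
  exact Finset.sum_subset (Finset.subset_univ _) fun i _ hi => by simpa using hi

/-- the top reduced exponent -/
noncomputable def T99.top (n D : ℕ) : Fin (n + 1) →₀ ℕ :=
  Finsupp.equivFunOnFinite.symm fun _ => D - 1

theorem T99.reduced_cases {n D : ℕ} (hD : 0 < D) {a : Fin (n + 1) →₀ ℕ} (ha : ∀ i, a i < D)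
    (hw : D ∣ a.degree + (n + 1)) : a ∈ T99.lowSet n D ∨ a = T99.top n D := by
  obtain ⟨m, hm⟩ := hw
  have h1 : a.degree + (n + 1) ≤ D * (n + 1) := by
    rw [T99.degree_eq]
    have : ∑ i, a i + (n + 1) = ∑ i, (a i + 1) := by
      rw [Finset.sum_add_distrib]; simp
    rw [this]
    calc ∑ i, (a i + 1) ≤ ∑ _i : Fin (n + 1), D := Finset.sum_le_sum fun i _ => ha i
      _ = D * (n + 1) := by simp [mul_comm]
  by_cases h2 : a.degree + (n + 1) ≤ D * n
  · exact Or.inl ⟨ha, ⟨m, hm⟩, h2⟩
  · right
    have h3 : m = n + 1 := by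
      rw [hm] at h1 h2
      have := Nat.le_of_mul_le_mul_left h1 hD
      have h4 : ¬ m ≤ n := fun h => h2 (Nat.mul_le_mul_left D h)
      omega
    have h4 : ∑ i, (a i + 1) = ∑ _i : Fin (n + 1), D := by
      have : ∑ i, a i + (n + 1) = ∑ i, (a i + 1) := by
        rw [Finset.sum_add_distrib]; simp
      rw [← this, ← T99.degree_eq, hm, h3]
      simp [mul_comm]
    have h5 := (Finset.sum_eq_sum_iff_of_le (s := Finset.univ) (f := fun i => a i + 1)
      (g := fun _ => D) fun i _ => ha i).1 h4
    ext i
    have := h5 i (Finset.mem_univ i)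
    change a i = D - 1
    omega

theorem BAS2_proof (hR : REDStmt) : BAS2Stmt := by
  classical
  intro F _ _ n D hD P hP hRed e he hne
  -- reduction
  have hS : Filt (fun _ : ℕ => (⊤ : AddSubgroup F)) :=
    ⟨fun _ _ _ => le_refl _, trivial, fun _ _ _ _ _ _ => trivial⟩
  have hT : ∀ g : Poly n F, CoefIn ⊤ g := fun g a => trivial
  have red : ∀ (m : ℕ) (g : Poly n F), Wt (D * m) g → ∃ r : Poly n F, g - r ∈ Rel P ∧ Rd D r ∧
      WtD D r := by
    intro m g hg
    obtain ⟨h, r, h1, h2, h3, -, -, -, -⟩ := hR F n D hD P _ hP hS (fun m hm => hRed m hm) m 0 g hg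
      (hT g)
    refine ⟨r, mem_Rel.2 ⟨h, by rw [h1]; ring⟩, h2, h3⟩
  -- the low span
  set v : (Fin (n + 1) →₀ ℕ) → VP P := fun a => cls P (monomial a 1) with hv
  obtain ⟨N0, hN1, -, hN2, hN3⟩ := exists_linearIndepOn_extension (K := F) (v := v)
    (s := ∅) (t := T99.lowSet n D) (linearIndepOn_empty _ _) (Set.empty_subset _)
  have hfin : N0.Finite := (T99.lowSet_finite n D).subset hN1
  set N : Finset (Fin (n + 1) →₀ ℕ) := hfin.toFinset with hN
  have hNmem : ∀ a, a ∈ N ↔ a ∈ N0 := fun a => hfin.mem_toFinset
  set b : Option N → Poly n F := fun a : Option N =>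
    a.elim e fun a => (monomial a.1 1 : Poly n F) with hb
  set w : Option N → VP P := fun j => cls P (b j) with hw
  have hlow : ∀ a ∈ T99.lowSet n D, v a ∈ Submodule.span F (v '' N0) := fun a ha =>
    hN2 ⟨a, ha, rfl⟩
  have hrange : Set.range (w ∘ (some : N → Option N)) = v '' N0 := by
    ext x
    constructor
    · rintro ⟨a, rfl⟩
      exact ⟨a.1, (hNmem _).1 a.2, rfl⟩
    · rintro ⟨a, ha, rfl⟩
      exact ⟨⟨a, (hNmem _).2 ha⟩, rfl⟩
  -- elements of the low span come from polynomials of low weight
  have hspanlow : ∀ x ∈ Submodule.span F (v '' N0), ∃ u : Poly n F, WtD D u ∧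
      (∀ a, coeff a u ≠ 0 → a.degree + (n + 1) ≤ D * n) ∧ cls P u = x := by
    intro x hx
    induction hx using Submodule.span_induction with
    | mem x hx =>
      obtain ⟨a, ha, rfl⟩ := hx
      have ha' := hN1 ha
      refine ⟨monomial a 1, ?_, ?_, rfl⟩
      · intro c hc
        rw [coeff_monomial] at hc
        split_ifs at hc with h
        · rw [← h]; exact ha'.2.1
        · exact absurd rfl hc
      · intro c hc
        rw [coeff_monomial] at hc
        split_ifs at hc with h
        · rw [← h]; exact ha'.2.2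
        · exact absurd rfl hc
    | zero => exact ⟨0, WtD.zero, fun a h => absurd (coeff_zero a) h, map_zero _⟩
    | add x y _ _ ihx ihy =>
      obtain ⟨u, u1, u2, rfl⟩ := ihx
      obtain ⟨u', u1', u2', rfl⟩ := ihy
      refine ⟨u + u', WtD.add u1 u1', fun a ha => ?_, map_add _ _ _⟩
      by_contra hn
      have h1 : coeff a u = 0 := by by_contra h1; exact hn (u2 a h1)
      have h2 : coeff a u' = 0 := by by_contra h2; exact hn (u2' a h2)
      rw [coeff_add, h1, h2, add_zero] at ha
      exact ha rfl
    | smul c x _ ih =>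
      obtain ⟨u, u1, u2, rfl⟩ := ih
      refine ⟨c • u, WtD.smul u1 c, fun a ha => u2 a fun h => ha ?_, map_smul _ _ _⟩
      rw [coeff_smul, h, smul_zero]
  have hnot : cls P e ∉ Submodule.span F (v '' N0) := by
    intro hin
    obtain ⟨u, u1, u2, u3⟩ := hspanlow _ hin
    refine hne u u1 u2 ?_
    rw [← Submodule.Quotient.mk_eq_zero, Submodule.Quotient.mk_sub, sub_eq_zero]
    exact u3.symm
  have hli : LinearIndependent F w := by
    rw [linearIndependent_option]
    constructor
    · have h1 : LinearIndependent F (fun a : N0 => v a.1) := hN3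
      have h2 : w ∘ (some : N → Option N) = (fun a : N0 => v a.1) ∘
          (fun a : N => (⟨a.1, (hNmem _).1 a.2⟩ : N0)) := rfl
      rw [h2]
      refine h1.comp _ ?_
      intro a c hac
      exact Subtype.ext (congrArg (fun x : N0 => x.1) hac)
    · rw [hrange]
      exact hnot
  -- the top monomial
  have hcls : ∀ r : Poly n F, Rd D r → WtD D r →
      cls P r ∈ Submodule.span F (v '' N0) ⊔ Submodule.span F {v (T99.top n D)} := by
    intro r h1 h2
    have hr : r = ∑ a ∈ r.support, coeff a r • (monomial a 1 : Poly n F) := by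
      conv_lhs => rw [r.as_sum]
      refine Finset.sum_congr rfl fun a _ => ?_
      rw [smul_monomial, smul_eq_mul, mul_one]
    rw [hr, map_sum]
    refine Submodule.sum_mem _ fun a ha => ?_
    rw [map_smul]
    refine Submodule.smul_mem _ _ ?_
    have ha' := mem_support_iff.1 ha
    rcases T99.reduced_cases hD (h1 a ha') (h2 a ha') with h | h
    · exact Submodule.mem_sup_left (hlow a h)
    · subst h
      exact Submodule.mem_sup_right (Submodule.mem_span_singleton_self _)
  have hwspan : Submodule.span F (v '' N0) ≤ Submodule.span F (Set.range w) := by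
    rw [← hrange]
    refine Submodule.span_mono ?_
    rintro x ⟨a, rfl⟩
    exact ⟨some a, rfl⟩
  have htop : v (T99.top n D) ∈ Submodule.span F (Set.range w) := by
    obtain ⟨r, h1, h2, h3⟩ := red (n + 1) e he
    have h4 : cls P e = cls P r := by
      rw [← sub_eq_zero, ← map_sub]
      exact (Submodule.Quotient.mk_eq_zero _).2 h1
    have h5 := hcls r h2 h3
    rw [← h4, Submodule.mem_sup] at h5
    obtain ⟨y, hy, z, hz, hyz⟩ := h5
    obtain ⟨c, rfl⟩ := Submodule.mem_span_singleton.1 hz
    have hc : c ≠ 0 := by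
      rintro rfl
      rw [zero_smul, add_zero] at hyz
      exact hnot (hyz ▸ hy)
    have : v (T99.top n D) = c⁻¹ • (w none - y) := by
      have h6 : w none - y = c • v (T99.top n D) := by
        change cls P e - y = _
        rw [← hyz]; abel
      rw [h6, smul_smul, inv_mul_cancel₀ hc, one_smul]
    rw [this]
    exact Submodule.smul_mem _ _ (Submodule.sub_mem _ (Submodule.subset_span ⟨none, rfl⟩)
      (hwspan hy))
  have hspan1 : ∀ r : Poly n F, Rd D r → WtD D r → cls P r ∈ Submodule.span F (Set.range w) := by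
    intro r h1 h2
    have h3 := hcls r h1 h2
    have h4 : Submodule.span F (v '' N0) ⊔ Submodule.span F {v (T99.top n D)} ≤
        Submodule.span F (Set.range w) := by
      refine sup_le hwspan ?_
      rw [Submodule.span_singleton_le_iff_mem]
      exact htop
    exact h4 h3
  have hspan : ∀ g : Poly n F, WtD D g → cls P g ∈ Submodule.span F (Set.range w) := by
    intro g hg
    have hr : g = ∑ a ∈ g.support, coeff a g • (monomial a 1 : Poly n F) := by
      conv_lhs => rw [g.as_sum]
      refine Finset.sum_congr rfl fun a _ => ?_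
      rw [smul_monomial, smul_eq_mul, mul_one]
    rw [hr, map_sum]
    refine Submodule.sum_mem _ fun a ha => ?_
    rw [map_smul]
    refine Submodule.smul_mem _ _ ?_
    obtain ⟨m, hm⟩ := hg a (mem_support_iff.1 ha)
    obtain ⟨r, h1, h2, h3⟩ := red m (monomial a 1) (by
      intro c hc
      rw [coeff_monomial] at hc
      split_ifs at hc with h
      · rw [← h]; exact hm
      · exact absurd rfl hc)
    have h4 : cls P (monomial a 1) = cls P r := by
      rw [← sub_eq_zero, ← map_sub]
      exact (Submodule.Quotient.mk_eq_zero _).2 h1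
    rw [h4]
    exact hspan1 r h2 h3
  -- coordinates
  set L : (Option N → F) →ₗ[F] VP P := Fintype.linearCombination F w with hL
  have hLker : LinearMap.ker L = ⊥ := by
    rw [LinearMap.ker_eq_bot]
    exact linearIndependent_iff_injective_fintypeLinearCombination.1 hli
  obtain ⟨c, hc⟩ := L.exists_leftInverse_of_injective hLker
  have hc' : ∀ x, c (L x) = x := fun x => by
    have := congrArg (fun f => f x) hc
    simpa using this
  have hWt : ∀ j, Wt (D * ((fun a : Option N => a.elim (n + 1) fun a =>
      (a.1.degree + (n + 1)) / D) j)) (b j) := by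
    intro j
    cases j with
    | none => exact he
    | some a =>
      intro x hx
      change coeff x (monomial a.1 1 : Poly n F) ≠ 0 at hx
      rw [coeff_monomial] at hx
      split_ifs at hx with h
      · rw [← h]
        exact (Nat.mul_div_cancel' (hN1 ((hNmem _).1 a.2)).2.1).symm
      · exact absurd rfl hx
  refine ⟨N, (c.comp (cls P)).comp (piD D), ⟨hWt, ?_, ?_, ?_, ?_, ?_⟩, ?_⟩
  · intro j
    cases j with
    | none => exact ⟨Nat.succ_le_succ (Nat.zero_le _), le_refl _⟩
    | some a =>
      have h1 := hN1 ((hNmem _).1 a.2)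
      constructor
      · exact (Nat.one_le_div_iff hD).2 (Nat.le_of_dvd (by omega) h1.2.1)
      · change (a.1.degree + (n + 1)) / D ≤ n + 1
        have : (a.1.degree + (n + 1)) / D ≤ D * n / D := Nat.div_le_div_right h1.2.2
        rw [Nat.mul_div_cancel_left _ hD] at this
        omega
  · intro i g
    rw [LinearMap.comp_apply, LinearMap.comp_apply, piD_Dop hP, cls_Dop, map_zero]
  · intro a ha
    rw [LinearMap.comp_apply, LinearMap.comp_apply, piD_monomial, if_neg ha, map_zero, map_zero]
  · intro j
    rw [LinearMap.comp_apply, LinearMap.comp_apply, piD_of_WtD (WtD_of_Wt (hWt j))]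
    have : cls P (b j) = L (Pi.single j 1) := by
      rw [hL, Fintype.linearCombination_apply_single, one_smul]
    rw [this, hc']
  · intro g hg
    rw [LinearMap.comp_apply, LinearMap.comp_apply, piD_of_WtD hg]
    have h1 := hspan g hg
    rw [← Fintype.range_linearCombination] at h1
    obtain ⟨x, hx⟩ := h1
    change L x = _ at hx
    rw [← hx, hc', ← Submodule.Quotient.mk_eq_zero, ← Submodule.mkQ_apply, map_sub, ← hx, map_sum,
      hL, Fintype.linearCombination_apply, sub_eq_zero]
    exact Finset.sum_congr rfl fun j _ => (map_smul _ _ _).symm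
  · intro a ha
    have h1 := hN1 ((hNmem _).1 ha)
    exact ⟨h1.1, h1.2.2⟩

end Pool.CUBE
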