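import Pool.Agent.H99.CUBE.Pre
import Pool.Agent.H10.CM.CX

/-!
# Cube project, block TAME: module CTL (the complexity filtration controls `P` and `P^φ`)
-/

set_option autoImplicit false

open Finset MvPolynomial Pool.CM

namespace Pool.CUBE

open T99

section
variable {n : ℕ} {A B : Type} [CommRing A] [CommRing B]
  {N : Type} [Fintype N] [DecidableEq N]

theorem T99.coF_monomial (φ : A →+* B) (co : Poly n A →ₗ[A] (N → A)) (a : Fin (n + 1) →₀ ℕ)
    (r : B) (j : N) : coF φ co (monomial a r) j = r * φ (co (monomial a 1) j) := by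
  rw [coF, linMon_monomial, Pi.smul_apply, smul_eq_mul]

theorem T99.coF_map (φ : A →+* B) (co : Poly n A →ₗ[A] (N → A)) (g : Poly n A) (j : N) :
    coF φ co (map φ g) j = φ (co g j) := by
  induction g using MvPolynomial.induction_on' with
  | add g1 g2 h1 h2 =>
    rw [map_add, map_add, map_add, Pi.add_apply, Pi.add_apply, h1, h2, map_add]
  | monomial a s =>
    rw [map_monomial, T99.coF_monomial]
    have : (monomial a s : Poly n A) = s • monomial a 1 := by
      rw [smul_monomial, smul_eq_mul, mul_one]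
    rw [this, map_smul, Pi.smul_apply, smul_eq_mul, map_mul]

theorem T99.coF_Dop (φ : A →+* B) (co : Poly n A →ₗ[A] (N → A)) (P : Poly n A)
    (hco : ∀ i g, co (Dop P i g) = 0) (i : Fin (n + 1)) (g : Poly n B) :
    coF φ co (Dop (map φ P) i g) = 0 := by
  induction g using MvPolynomial.induction_on' with
  | add g1 g2 h1 h2 => rw [map_add, map_add, h1, h2, add_zero]
  | monomial a s =>
    have : (monomial a s : Poly n B) = s • map φ (monomial a 1) := by
      rw [map_monomial, map_one, smul_monomial, smul_eq_mul, mul_one]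
    rw [this, map_smul, map_smul, ← map_Dop]
    have h : coF φ co (map φ (Dop P i (monomial a 1))) = 0 := by
      ext j
      rw [T99.coF_map, hco, Pi.zero_apply, map_zero, Pi.zero_apply]
    rw [h, smul_zero]

theorem T99.Wt_map {N : ℕ} (φ : A →+* B) {g : Poly n A} (h : Wt N g) : Wt N (map φ g) := by
  intro a ha
  refine h a fun e => ha ?_
  rw [coeff_map, e, map_zero]

theorem T99.WtD_map {D : ℕ} (φ : A →+* B) {g : Poly n A} (h : WtD D g) : WtD D (map φ g) := by
  intro a ha
  refine h a fun e => ha ?_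
  rw [coeff_map, e, map_zero]

theorem T99.Rd_map {D : ℕ} (φ : A →+* B) {g : Poly n A} (h : Rd D g) : Rd D (map φ g) := by
  intro a ha
  refine h a fun e => ha ?_
  rw [coeff_map, e, map_zero]

end

theorem CTL_proof (hI : INTStmt) : CTLStmt := by
  classical
  intro X E _ _ A hA n D hD P hP hRed N _ _ b l co hco T
  -- the reduction data
  have F1 : ∀ a : Fin (n + 1) →₀ ℕ, ∃ (g : Fin (n + 1) → Poly n E) (r : Poly n E),
      ∀ m ≤ n + 1, a.degree + (n + 1) = D * (m + 1) →
      (monomial a 1 : Poly n E) = ∑ i, ez i P * g i + r ∧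
      (∀ i, Wt (D * m) (g i)) ∧ Wt (D * (m + 1)) r ∧ Rd D r := by
    intro a
    by_cases h : ∃ m ≤ n + 1, a.degree + (n + 1) = D * (m + 1)
    · obtain ⟨m, hm, he⟩ := h
      obtain ⟨g, r, h1, h2, h3, h4, -, -⟩ := hRed m hm a he
      refine ⟨g, r, fun m' hm' he' => ?_⟩
      have : m' = m := by
        have := Nat.eq_of_mul_eq_mul_left hD (he'.symm.trans he)
        omega
      subst this
      exact ⟨h1, h2, h3, h4⟩
    · exact ⟨0, 0, fun m hm he => absurd ⟨m, hm, he⟩ h⟩
  choose gm rr hgr using F1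
  have F2 : ∀ a : Fin (n + 1) →₀ ℕ, ∃ h : Fin (n + 1) → Poly n E, D ∣ a.degree + (n + 1) →
      (∀ i, WtD D (h i)) ∧
      (monomial a 1 : Poly n E) = ∑ j, co (monomial a 1) j • b j + ∑ i, Dop P i (h i) := by
    intro a
    by_cases ha : D ∣ a.degree + (n + 1)
    · have haW : WtD D (monomial a 1 : Poly n E) := by
        intro c hc
        rw [coeff_monomial] at hc
        split_ifs at hc with h
        · rw [← h]; exact ha
        · exact absurd rfl hc
      obtain ⟨h, hh⟩ := mem_Rel.1 (hco.span _ haW)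
      refine ⟨fun i => piD D (h i), fun _ => ⟨fun i => WtD_piD _ _, ?_⟩⟩
      have h1 := congrArg (piD D) hh
      rw [map_sub, map_sum, map_sum, piD_of_WtD haW] at h1
      have h2 : ∑ j, piD D (co (monomial a 1) j • b j) = ∑ j, co (monomial a 1) j • b j :=
        Finset.sum_congr rfl fun j _ => by
          rw [map_smul, piD_of_WtD (WtD_of_Wt (hco.lb j))]
      have h3 : ∑ i, piD D (Dop P i (h i)) = ∑ i, Dop P i (piD D (h i)) :=
        Finset.sum_congr rfl fun i _ => piD_Dop hP i _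
      rw [h2, h3] at h1
      rw [← h1]
      ring
    · exact ⟨0, fun h => absurd h ha⟩
  choose hh hhh using F2
  -- the finite set of all polynomials
  set Ex : Finset (Fin (n + 1) →₀ ℕ) := Finset.Iic
    (Finsupp.equivFunOnFinite.symm fun _ : Fin (n + 1) => D * (n + 2)) with hEx
  have memEx : ∀ a : Fin (n + 1) →₀ ℕ, (∀ i, a i ≤ D * (n + 2)) → a ∈ Ex := by
    intro a ha
    rw [hEx, Finset.mem_Iic, Finsupp.le_def]
    exact ha
  set Q : Finset (Poly n E) := {P} ∪ Finset.univ.image b ∪ Ex.biUnion (fun a =>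
    Finset.univ.image (gm a) ∪ {rr a} ∪ Finset.univ.image (hh a) ∪
      Finset.univ.image (fun j => C (co (monomial a 1) j))) with hQ
  set S : Finset E := T ∪ Q.biUnion (fun q => q.support.image fun a => coeff a q) with hSdef
  have hPQ : P ∈ Q := by simp [hQ]
  have hbQ : ∀ j, b j ∈ Q := fun j => by simp [hQ]
  have hQa : ∀ a ∈ Ex, (∀ i, gm a i ∈ Q) ∧ rr a ∈ Q ∧ (∀ i, hh a i ∈ Q) ∧
      ∀ j, C (co (monomial a 1) j) ∈ Q := by
    intro a ha
    have : ∀ x, x ∈ (Finset.univ.image (gm a) ∪ {rr a} ∪ Finset.univ.image (hh a) ∪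
      Finset.univ.image (fun j => C (co (monomial a 1) j))) → x ∈ Q := fun x hx =>
      Finset.mem_union_right _ (Finset.mem_biUnion.2 ⟨a, ha, hx⟩)
    refine ⟨fun i => this _ ?_, this _ ?_, fun i => this _ ?_, fun j => this _ ?_⟩ <;> simp
  have hTS : ∀ x ∈ T, x ∈ S := fun x hx => Finset.mem_union_left _ hx
  have hQS : ∀ q ∈ Q, ∀ a, coeff a q ≠ 0 → coeff a q ∈ S := fun q hq a ha =>
    Finset.mem_union_right _ (Finset.mem_biUnion.2 ⟨q, hq, Finset.mem_image.2
      ⟨a, mem_support_iff.2 ha, rfl⟩⟩)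
  obtain ⟨Cx, c, B, hB⟩ := Pool.CM.cx X E A hA S
  refine ⟨Cx, c, B, fun i hi => ?_⟩
  obtain ⟨k1, k2, k3, k4, k5, k6, k7, k8, k9, -⟩ := hB i hi
  have q1 : ∀ q ∈ Q, CoefIn (Cx i 1) q := by
    intro q hq a
    by_cases h : coeff a q = 0
    · rw [h]; exact AddSubgroup.zero_mem _
    · exact k7 _ (hQS q hq a h)
  have q2 : ∀ q ∈ Q, CoefIn (Cx i (X.p i)) (map (A.phi i) q) := by
    intro q hq a
    rw [coeff_map]
    by_cases h : coeff a q = 0
    · rw [h, map_zero]; exact AddSubgroup.zero_mem _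
    · exact k8 _ (hQS q hq a h)
  have hF : Filt (Cx i) := ⟨k2, k3, k4⟩
  have hF' : Filt (fun m => Cx i (X.p i * m)) := by
    refine ⟨fun a b hab => k2 _ _ (Nat.mul_le_mul_left _ hab), by simpa using k3, ?_⟩
    intro a b x y hx hy
    change x * y ∈ Cx i (X.p i * (a + b))
    rw [mul_add]
    exact k4 _ _ _ _ hx hy
  have exdeg : ∀ (m : ℕ), m ≤ n + 1 → ∀ a : Fin (n + 1) →₀ ℕ,
      a.degree + (n + 1) = D * (m + 1) → a ∈ Ex := by
    intro m hm a ha
    refine memEx a fun k => ?_
    have h1 : a k ≤ a.degree := Finsupp.le_degree k a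
    have h2 : D * (m + 1) ≤ D * (n + 2) := Nat.mul_le_mul_left _ (by omega)
    omega
  have exred : ∀ a : Fin (n + 1) →₀ ℕ, (∀ k, a k < D) → a ∈ Ex := by
    intro a ha
    refine memEx a fun k => ?_
    have h1 := ha k
    have h2 : D * 1 ≤ D * (n + 2) := Nat.mul_le_mul_left _ (by omega)
    omega
  have hcoC : ∀ a ∈ Ex, ∀ j, co (monomial a 1) j ∈ Cx i 1 := by
    intro a ha j
    have := q1 _ ((hQa a ha).2.2.2 j) 0
    rwa [coeff_zero_C] at this
  have hcoC' : ∀ a ∈ Ex, ∀ j, A.phi i (co (monomial a 1) j) ∈ Cx i (X.p i) := by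
    intro a ha j
    have := q2 _ ((hQa a ha).2.2.2 j) 0
    rwa [coeff_map, coeff_zero_C] at this
  refine ⟨⟨k1, k2, k3, k4, k5, k6, k9⟩, fun x hx => ⟨k7 x (hTS x hx), k8 x (hTS x hx)⟩,
    q1 P hPQ, q2 P hPQ, fun j => q1 _ (hbQ j), fun j => q2 _ (hbQ j), ?_, ?_⟩
  · refine hI E n D hD P (Cx i) hP hF ?_ N b co hco.rel ?_
    · intro m hm a ha
      obtain ⟨h1, h2, h3, h4⟩ := hgr a m hm ha
      have hq := hQa a (exdeg m hm a ha)
      exact ⟨gm a, rr a, h1, h2, h3, h4, fun k => q1 _ (hq.1 k), q1 _ hq.2.1⟩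
    · intro a ha hw
      obtain ⟨h1, h2⟩ := hhh a hw
      have hq := hQa a (exred a ha)
      exact ⟨hh a, h1, fun k => q1 _ (hq.2.2.1 k), hcoC a (exred a ha), h2⟩
  · refine hI E n D hD (map (A.phi i) P) (fun m => Cx i (X.p i * m)) (hP.map _) hF' ?_ N
      (fun j => map (A.phi i) (b j)) (coF (A.phi i) co) (T99.coF_Dop _ _ _ hco.rel) ?_
    · intro m hm a ha
      obtain ⟨h1, h2, h3, h4⟩ := hgr a m hm ha
      have hq := hQa a (exdeg m hm a ha)
      refine ⟨fun k => map (A.phi i) (gm a k), map (A.phi i) (rr a), ?_,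
        fun k => T99.Wt_map _ (h2 k), T99.Wt_map _ h3, T99.Rd_map _ h4, fun k => ?_, ?_⟩
      · have h5 := congrArg (map (A.phi i)) h1
        rw [map_monomial, map_one, map_add, map_sum] at h5
        rw [h5]
        congr 1
        exact Finset.sum_congr rfl fun k _ => by rw [map_mul, map_ez]
      · change CoefIn (Cx i (X.p i * 1)) _
        rw [mul_one]
        exact q2 _ (hq.1 k)
      · change CoefIn (Cx i (X.p i * 1)) _
        rw [mul_one]
        exact q2 _ hq.2.1
    · intro a ha hw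
      obtain ⟨h1, h2⟩ := hhh a hw
      have hq := hQa a (exred a ha)
      have e0 : ∀ j, coF (A.phi i) co (monomial a 1) j = A.phi i (co (monomial a 1) j) := by
        intro j
        rw [T99.coF_monomial, one_mul]
      refine ⟨fun k => map (A.phi i) (hh a k), fun k => T99.WtD_map _ (h1 k), fun k => ?_,
        fun j => ?_, ?_⟩
      · change CoefIn (Cx i (X.p i * 1)) _
        rw [mul_one]
        exact q2 _ (hq.2.2.1 k)
      · change _ ∈ Cx i (X.p i * 1)
        rw [mul_one, e0]
        exact hcoC' a (exred a ha) j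
      · have h5 := congrArg (map (A.phi i)) h2
        rw [map_monomial, map_one, map_add, map_sum, map_sum] at h5
        conv_lhs => rw [h5]
        congr 1
        · refine Finset.sum_congr rfl fun j _ => ?_
          rw [e0, smul_eq_C_mul, map_mul, map_C, ← smul_eq_C_mul]
        · exact Finset.sum_congr rfl fun k _ => map_Dop _ _ _ _

end Pool.CUBE
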