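import Pool.Agent.H99.CUBE.Pre

/-!
# Cube project, block TAME: module INT (control from reduction)
-/

set_option autoImplicit false

open Finset MvPolynomial Pool.CM

namespace Pool.CUBE

open T99

theorem INT_proof (hR : REDStmt) : INTStmt := by
  classical
  intro A _ n D hD P S hP hS hRed N _ _ b co hrel hmon m k g hg hgc
  obtain ⟨h0, r, hgr, hrd, hrD, -, h0D, hrc, h0c⟩ := hR A n D hD P S hP hS hRed m k g hg hgc
  -- data of the reduced monomials
  have hmon' : ∀ a : Fin (n + 1) →₀ ℕ, ∃ h : Fin (n + 1) → Poly n A,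
      a ∈ r.support → (∀ i, WtD D (h i)) ∧ (∀ i, Pool.CUBE.CoefIn (S 1) (h i)) ∧
      (∀ j, co (monomial a 1) j ∈ S 1) ∧
      (monomial a 1 : Poly n A) = ∑ j, co (monomial a 1) j • b j + ∑ i, Dop P i (h i) := by
    intro a
    by_cases ha : a ∈ r.support
    · obtain ⟨h, h1, h2, h3, h4⟩ := hmon a (hrd a (mem_support_iff.1 ha))
        (hrD a (mem_support_iff.1 ha))
      exact ⟨h, fun _ => ⟨h1, h2, h3, h4⟩⟩
    · exact ⟨0, fun h => absurd h ha⟩
  choose h hh using hmon'
  have hco0 : ∀ f : Fin (n + 1) → Poly n A, co (∑ i, Dop P i (f i)) = 0 := by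
    intro f
    rw [map_sum]
    exact Finset.sum_eq_zero fun i _ => hrel i _
  have hr : r = ∑ a ∈ r.support, coeff a r • (monomial a 1 : Poly n A) := by
    conv_lhs => rw [r.as_sum]
    refine Finset.sum_congr rfl fun a _ => ?_
    rw [smul_monomial, smul_eq_mul, mul_one]
  have hcg : co g = co r := by rw [hgr, map_add, hco0, add_zero]
  have hcr : ∀ j, co r j = ∑ a ∈ r.support, coeff a r * co (monomial a 1) j := by
    intro j
    conv_lhs => rw [hr, map_sum, Finset.sum_apply]
    refine Finset.sum_congr rfl fun a _ => ?_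
    rw [map_smul, Pi.smul_apply, smul_eq_mul]
  refine ⟨fun j => ?_, fun i => h0 i + ∑ a ∈ r.support, coeff a r • h a i, fun i => ?_,
    fun i => ?_, ?_⟩
  · rw [hcg, hcr]
    exact AddSubgroup.sum_mem _ fun a ha => hS.mul _ _ _ _ (hrc a) ((hh a ha).2.2.1 j)
  · exact WtD.add (h0D i) (WtD.sum _ fun a ha => WtD.smul ((hh a ha).1 i) _)
  · refine CoefIn.add (fun a => hS.mono _ _ (Nat.le_succ _) (h0c i a)) (CoefIn.sum _ fun a ha => ?_)
    exact CoefIn.smul hS (hrc a) ((hh a ha).2.1 i)
  · conv_lhs => rw [hgr, hr]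
    have e1 : ∑ a ∈ r.support, coeff a r • (monomial a 1 : Poly n A) =
        ∑ j, co g j • b j + ∑ i, Dop P i (∑ a ∈ r.support, coeff a r • h a i) := by
      have : ∀ a ∈ r.support, coeff a r • (monomial a 1 : Poly n A) =
          ∑ j, (coeff a r * co (monomial a 1) j) • b j + ∑ i, Dop P i (coeff a r • h a i) := by
        intro a ha
        conv_lhs => rw [(hh a ha).2.2.2]
        rw [smul_add, Finset.smul_sum, Finset.smul_sum]
        congr 1
        · exact Finset.sum_congr rfl fun j _ => smul_smul _ _ _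
        · exact Finset.sum_congr rfl fun i _ => (map_smul _ _ _).symm
      rw [Finset.sum_congr rfl this, Finset.sum_add_distrib, Finset.sum_comm,
        Finset.sum_comm (s := r.support) (t := Finset.univ)]
      congr 1
      · refine Finset.sum_congr rfl fun j _ => ?_
        rw [hcg, hcr, Finset.sum_smul]
      · refine Finset.sum_congr rfl fun i _ => ?_
        rw [map_sum]
    rw [e1, add_assoc, ← Finset.sum_add_distrib]
    congr 1
    refine Finset.sum_congr rfl fun i _ => ?_
    rw [map_add, add_comm]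

end Pool.CUBE
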