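import Pool.Agent.H38.CUBE.JJStmts2
import Pool.Agent.H74.CUBE.J_JJIOTA

/-!
# MP_47888e_al, block JJ part 2, module X1H: `X₁` is homogeneous and integral almost everywhere
-/

set_option autoImplicit false

open Polynomial

namespace Pool.CUBE

open Pool.CM Pool.H93.Cube

namespace X1H99

section
variable {E : Type} [Field E] (O : Subring E)

theorem C_C_mem {c : E} (hc : c ∈ O) : (Polynomial.C (Polynomial.C c) : B2 E) ∈ O2 O := by
  intro u w
  rw [Polynomial.coeff_C]
  split_ifs
  · rw [Polynomial.coeff_C]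
    split_ifs
    · exact hc
    · exact O.zero_mem
  · rw [Polynomial.coeff_zero]; exact O.zero_mem

theorem C_X_pow_mem (k : ℕ) : (Polynomial.C (Polynomial.X ^ k) : B2 E) ∈ O2 O := by
  intro u w
  rw [Polynomial.coeff_C]
  split_ifs
  · rw [Polynomial.coeff_X_pow]
    split_ifs
    · exact O.one_mem
    · exact O.zero_mem
  · rw [Polynomial.coeff_zero]; exact O.zero_mem

theorem X_mem : (Polynomial.X : B2 E) ∈ O2 O := by
  intro u w
  rw [Polynomial.coeff_X]
  split_ifs
  · rw [Polynomial.coeff_one]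
    split_ifs
    · exact O.one_mem
    · exact O.zero_mem
  · rw [Polynomial.coeff_zero]; exact O.zero_mem

theorem fer_mem (n D : ℕ) (b : Fin (n + 1) →₀ ℕ) :
    MvPolynomial.coeff b (Corner.fer n D (B2 E)) ∈ O2 O := by
  classical
  unfold Corner.fer
  rw [MvPolynomial.coeff_sum]
  refine (O2 O).sum_mem fun i _ => ?_
  rw [MvPolynomial.coeff_X_pow]
  split_ifs
  · exact (O2 O).one_mem
  · exact (O2 O).zero_mem

end

end X1H99

/-- MODULE X1H -/
theorem x1h_thm : Corner.X1HStmt := by
  classical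
  intro X E _ _ A hA n K
  constructor
  · unfold Corner.X1
    refine MvPolynomial.IsHomogeneous.sub ?_ ?_
    · refine MvPolynomial.IsHomogeneous.sum _ _ _ fun k _ => ?_
      have h1 := (MvPolynomial.isHomogeneous_C (Fin (n + 1))
        (Polynomial.C (Polynomial.X ^ k) : B2 E)).mul
        ((J_JJIOTA.G_homog K k).map ((Polynomial.C (R := E[X])).comp (Polynomial.C (R := E))))
      rwa [zero_add] at h1
    · have h1 := (MvPolynomial.isHomogeneous_C (Fin (n + 1)) (Polynomial.X : B2 E)).mul
        (J_JJIOTA.fer_homog n K.D (B2 E))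
      rwa [zero_add] at h1
  · have h0 : X.Ev fun i => ∀ k ∈ Finset.range ((1 + K.w).natDegree + 1),
        ∀ b ∈ (K.G k).support, MvPolynomial.coeff b (K.G k) ∈ A.O i := by
      refine Idx.Ev.allFinset _ fun k _ => ?_
      refine Idx.Ev.allFinset _ fun b hb => ?_
      exact (hA.pf2 _ (MvPolynomial.mem_support_iff.1 hb)).mono fun i hi => hi.2.1
    refine h0.mono fun i hi b => ?_
    unfold Corner.X1
    rw [MvPolynomial.coeff_sub, MvPolynomial.coeff_sum]
    refine (O2 (A.O i)).sub_mem ((O2 (A.O i)).sum_mem fun k hk => ?_) ?_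
    · rw [MvPolynomial.coeff_C_mul, MvPolynomial.coeff_map]
      refine (O2 (A.O i)).mul_mem (X1H99.C_X_pow_mem _ _) (X1H99.C_C_mem _ ?_)
      by_cases h : MvPolynomial.coeff b (K.G k) = 0
      · rw [h]; exact (A.O i).zero_mem
      · exact hi k hk b (MvPolynomial.mem_support_iff.2 h)
    · rw [MvPolynomial.coeff_C_mul]
      exact (O2 (A.O i)).mul_mem (X1H99.X_mem _) (X1H99.fer_mem _ _ _ _)

end Pool.CUBE

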